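import Pool.Agent.KDS.StmtsA

set_option autoImplicit false

/-!
# KDS, row DPA: the algebra of doubling.
-/

namespace Pool.Agent.KDS.H21

open Polynomial NumberField H58Q Pool.Agent.SZT Pool.Agent.KDT

section scal

variable {K : Type} [Field K]

/-- the resultant -/
def rr (s p b0 b1 : K) : K := b0 ^ 2 + b0 * b1 * s + b1 ^ 2 * p

/-- c1 -/
def c1f (s p b0 b1 m m0 c2 : K) : K :=
  2 * (b1 * m * s + b1 * m0 + b0 * m) + p - s * (c2 + s)

/-- c0 -/
def c0f (s p b0 b1 m m0 c2 : K) : K :=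
  2 * (b0 * m0 - b1 * m * p) + p * (c2 + s)

/-- m^2 k4 of the double -/
def TT (s p b0 b1 m m0 c2 : K) : K :=
  -s^3*m^2 + 2*s^2*b1*m^3 + s^2*m^2*m0^2 + -s^2*m^2*c2 + -2*s^2*m*m0 + s^2 + 2*s*p*m^3*m0
    + 2*s*b0*m^3 + 4*s*b1*m^2*m0 + -2*s*b1*m + 2*s*m*m0^3 + -2*s*m*m0*c2 + -2*s*m0^2 + 2*s*c2
    + p^2*m^4 + 2*p*m^2*m0^2 + -2*p*m*m0 + 2*b0*m^2*m0 + -2*b0*m + 2*b1*m*m0^2 + -2*b1*m*c2
    + m0^4 + -2*m0^2*c2 + c2^2

/-- the coefficients of f -/
structure Cf (f : K[X]) (s p b0 b1 c0 c1 c2 : K) : Prop where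
  h0 : f.coeff 0 = p * c0 + b0 ^ 2
  h1 : f.coeff 1 = p * c1 - s * c0 + 2 * b0 * b1
  h2 : f.coeff 2 = c0 - s * c1 + p * c2 + b1 ^ 2
  h3 : f.coeff 3 = c1 - s * c2 + p
  h4 : f.coeff 4 = c2 - s

set_option maxRecDepth 100000 in
theorem dupid0 (f : K[X]) (s p b0 b1 m m0 c2 : K)
    (H : Cf f s p b0 b1 (c0f s p b0 b1 m m0 c2) (c1f s p b0 b1 m m0 c2) c2)
    (u : Fin 4 → K) (e0 : u 0 = 1) (e1 : u 1 = s) (e2 : u 2 = p)
    (e3 : u 3 = -(c0f s p b0 b1 m m0 c2 + p * c2)) :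
    dup0 f u = 16 * rr s p b0 b1 ^ 2 * m ^ 2 := by
  unfold dup0
  rw [e0, e1, e2, e3, H.h0, H.h1, H.h2, H.h3, H.h4]
  unfold c0f c1f rr
  ring

set_option maxRecDepth 100000 in
theorem dupid1 (f : K[X]) (s p b0 b1 m m0 c2 : K)
    (H : Cf f s p b0 b1 (c0f s p b0 b1 m m0 c2) (c1f s p b0 b1 m m0 c2) c2)
    (u : Fin 4 → K) (e0 : u 0 = 1) (e1 : u 1 = s) (e2 : u 2 = p)
    (e3 : u 3 = -(c0f s p b0 b1 m m0 c2 + p * c2)) :
    dup1 f u = 16 * rr s p b0 b1 ^ 2 * (1 - 2 * m * m0) := by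
  unfold dup1
  rw [e0, e1, e2, e3, H.h0, H.h1, H.h2, H.h3, H.h4]
  unfold c0f c1f rr
  ring

set_option maxRecDepth 100000 in
theorem dupid2 (f : K[X]) (s p b0 b1 m m0 c2 : K)
    (H : Cf f s p b0 b1 (c0f s p b0 b1 m m0 c2) (c1f s p b0 b1 m m0 c2) c2)
    (u : Fin 4 → K) (e0 : u 0 = 1) (e1 : u 1 = s) (e2 : u 2 = p)
    (e3 : u 3 = -(c0f s p b0 b1 m m0 c2 + p * c2)) :
    dup2 f u = 16 * rr s p b0 b1 ^ 2 * (m0 ^ 2 - c2 - s + 2 * b1 * m) := by
  unfold dup2
  rw [e0, e1, e2, e3, H.h0, H.h1, H.h2, H.h3, H.h4]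
  unfold c0f c1f rr
  ring

set_option maxRecDepth 100000 in
theorem dupid3 (f : K[X]) (s p b0 b1 m m0 c2 : K)
    (H : Cf f s p b0 b1 (c0f s p b0 b1 m m0 c2) (c1f s p b0 b1 m m0 c2) c2)
    (u : Fin 4 → K) (e0 : u 0 = 1) (e1 : u 1 = s) (e2 : u 2 = p)
    (e3 : u 3 = -(c0f s p b0 b1 m m0 c2 + p * c2)) :
    dup3 f u = 16 * rr s p b0 b1 ^ 2 * TT s p b0 b1 m m0 c2 := by
  unfold dup3
  rw [e0, e1, e2, e3, H.h0, H.h1, H.h2, H.h3, H.h4]
  unfold c0f c1f rr TT
  ring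

theorem quadform (A : K[X]) (h : A.Monic) (h2 : A.natDegree = 2) :
    A = X ^ 2 - C (-A.coeff 1) * X + C (A.coeff 0) := by
  have h3 := h.as_sum
  rw [h2] at h3
  rw [Finset.sum_range_succ, Finset.sum_range_succ, Finset.sum_range_zero] at h3
  conv_lhs => rw [h3]
  simp only [pow_zero, pow_one, mul_one, C_neg]
  ring

theorem cubform (A : K[X]) (h : A.Monic) (h2 : A.natDegree = 3) :
    A = X ^ 3 + C (A.coeff 2) * X ^ 2 + C (A.coeff 1) * X + C (A.coeff 0) := by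
  have h3 := h.as_sum
  rw [h2] at h3
  rw [Finset.sum_range_succ, Finset.sum_range_succ, Finset.sum_range_succ,
    Finset.sum_range_zero] at h3
  conv_lhs => rw [h3]
  simp only [pow_zero, pow_one, mul_one]
  ring

/-- A -/
noncomputable def pA (s p : K) : K[X] := X ^ 2 - C s * X + C p

/-- B -/
noncomputable def pB (b1 b0 : K) : K[X] := C b1 * X + C b0

/-- f -/
noncomputable def pf (s p b0 b1 c0 c1 c2 : K) : K[X] :=
  pB b1 b0 ^ 2 + pA s p * (X ^ 3 + C c2 * X ^ 2 + C c1 * X + C c0)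

theorem pf_eq (s p b0 b1 c0 c1 c2 : K) : pf s p b0 b1 c0 c1 c2 =
    X ^ 5 + C (c2 - s) * X ^ 4 + C (c1 - s * c2 + p) * X ^ 3
      + C (c0 - s * c1 + p * c2 + b1 ^ 2) * X ^ 2 + C (p * c1 - s * c0 + 2 * b0 * b1) * X
      + C (p * c0 + b0 ^ 2) := by
  unfold pf pA pB
  simp only [map_add, map_sub, map_mul, map_pow, C_ofNat]
  ring

theorem cf_pf (s p b0 b1 c0 c1 c2 : K) : Cf (pf s p b0 b1 c0 c1 c2) s p b0 b1 c0 c1 c2 := by
  constructor <;> rw [pf_eq] <;>
    simp only [coeff_add, coeff_C_mul, coeff_X_pow, coeff_X, coeff_C] <;> norm_num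

theorem pA_nat (s p : K) : (pA s p).natDegree = 2 := by
  unfold pA
  compute_degree!

theorem pA_monic (s p : K) : (pA s p).Monic := by
  unfold pA
  monicity!

theorem pA_coeff1 (s p : K) : (pA s p).coeff 1 = -s := by
  unfold pA
  simp [coeff_X, coeff_C]

theorem pA_coeff0 (s p : K) : (pA s p).coeff 0 = p := by
  unfold pA
  simp

theorem pB_coeff1 (b1 b0 : K) : (pB b1 b0).coeff 1 = b1 := by
  unfold pB
  simp [coeff_C]

theorem res_pA (s p b0 b1 : K) : resultant (pA s p) (2 * pB b1 b0) = 4 * rr s p b0 b1 := by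
  have e2 : (2 : K[X]) * pB b1 b0 = C (2 * b1) * X + C (2 * b0) := by
    unfold pB
    simp only [map_mul, C_ofNat]
    ring
  rw [e2]
  by_cases hb : 2 * b1 = 0
  · rw [hb, C_0, zero_mul, zero_add, resultant_C_right]
    rw [pA_nat]
    simp only [natDegree_C, pow_zero, one_mul]
    have : 4 * rr s p b0 b1 = (2 * b0) ^ 2 + (2 * b1) * (2 * b0) * s + (2 * b1) ^ 2 * p := by
      unfold rr; ring
    rw [this, hb]
    ring
  · have e3 : C (2 * b1) * X + C (2 * b0) = C (2 * b1) * (X - C (-(2 * b0) / (2 * b1))) := by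
      rw [mul_sub, ← C_mul, mul_div_cancel₀ _ hb, C_neg]
      ring
    have e4 : (C (2 * b1) * X + C (2 * b0) : K[X]).natDegree = 1 := natDegree_linear hb
    rw [e4, e3, resultant_C_mul_right, resultant_X_sub_C_right _ _ _ le_rfl, pA_nat]
    have e5 : 4 * rr s p b0 b1 = (2 * b0) ^ 2 + (2 * b1) * (2 * b0) * s + (2 * b1) ^ 2 * p := by
      unfold rr; ring
    rw [e5]
    unfold pA
    simp only [eval_add, eval_sub, eval_pow, eval_X, eval_mul, eval_C]
    generalize 2 * b1 = t at hb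
    generalize 2 * b0 = w
    field_simp
    ring


theorem core (s p b0 b1 c0 c1 c2 : K) (h2 : (2 : K) ≠ 0) (hr : rr s p b0 b1 ≠ 0) :
    (∃ (m : K) (A₂ B₂ V : K[X]), Dbl (pf s p b0 b1 c0 c1 c2) (pA s p) (pB b1 b0) m A₂ B₂ V ∧
      dup (pf s p b0 b1 c0 c1 c2) (kum (pf s p b0 b1 c0 c1 c2) (pA s p) (pB b1 b0)) 0
        = (m * resultant (pA s p) (2 * (pB b1 b0))) ^ 2 ∧
      dup (pf s p b0 b1 c0 c1 c2) (kum (pf s p b0 b1 c0 c1 c2) (pA s p) (pB b1 b0)) 0 ≠ 0 ∧
      ∀ l, dup (pf s p b0 b1 c0 c1 c2) (kum (pf s p b0 b1 c0 c1 c2) (pA s p) (pB b1 b0)) l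
        = dup (pf s p b0 b1 c0 c1 c2) (kum (pf s p b0 b1 c0 c1 c2) (pA s p) (pB b1 b0)) 0
          * kum (pf s p b0 b1 c0 c1 c2) A₂ B₂ l) ∨
    ∃ (a : K) (V : K[X]), V.natDegree ≤ 2 ∧
      pf s p b0 b1 c0 c1 c2 - V ^ 2 = (pA s p) ^ 2 * (X - C a) ∧ (pA s p) ∣ V - (pB b1 b0) := by
  obtain ⟨m, m0, hc1, hc0⟩ : ∃ m m0 : K, c1 = c1f s p b0 b1 m m0 c2 ∧
      c0 = c0f s p b0 b1 m m0 c2 := by
    refine ⟨(b0 * (c1 - p + s * (c2 + s)) - b1 * (c0 - p * (c2 + s))) / (2 * rr s p b0 b1),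
      ((b1 * s + b0) * (c0 - p * (c2 + s)) + b1 * p * (c1 - p + s * (c2 + s)))
        / (2 * rr s p b0 b1), ?_, ?_⟩
    · unfold c1f
      field_simp
      unfold rr
      ring
    · unfold c0f
      field_simp
      unfold rr
      ring
  subst hc1 hc0
  set f := pf s p b0 b1 (c0f s p b0 b1 m m0 c2) (c1f s p b0 b1 m m0 c2) c2 with hf
  have H : Cf f s p b0 b1 (c0f s p b0 b1 m m0 c2) (c1f s p b0 b1 m m0 c2) c2 := cf_pf _ _ _ _ _ _ _
  set V : K[X] := pB b1 b0 + pA s p * (C m * X + C m0) with hV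
  have hid : f - V ^ 2 = pA s p ^ 2 * (X + C c2 + C s - 2 * C b1 * C m - (C m * X + C m0) ^ 2) := by
    rw [hf, hV]
    unfold pf pA pB c0f c1f
    simp only [map_add, map_sub, map_mul, map_pow, C_ofNat]
    ring
  have hdvdV : pA s p ∣ V - pB b1 b0 := ⟨C m * X + C m0, by rw [hV]; ring⟩
  by_cases hm : m = 0
  · right
    refine ⟨m0 ^ 2 - c2 - s, V, ?_, ?_, hdvdV⟩
    · rw [hV, hm]
      unfold pA pB
      rw [C_0, zero_mul, zero_add]
      compute_degree
    · rw [hid, hm]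
      simp only [map_sub, map_pow, C_0]
      ring
  · left
    have hm2 : m ^ 2 ≠ 0 := pow_ne_zero 2 hm
    set s2 : K := (1 - 2 * m * m0) / m ^ 2 with hs2
    set p2 : K := (m0 ^ 2 - c2 - s + 2 * b1 * m) / m ^ 2 with hp2
    have es2 : m ^ 2 * s2 = 1 - 2 * m * m0 := by rw [hs2]; field_simp
    have ep2 : m ^ 2 * p2 = m0 ^ 2 - c2 - s + 2 * b1 * m := by rw [hp2]; field_simp
    have hA2 : C (m ^ 2) * pA s2 p2 = (C m * X + C m0) ^ 2 - X - C c2 - C s + 2 * C b1 * C m := by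
      have e1 : C (m ^ 2) * pA s2 p2 = C (m ^ 2) * X ^ 2 - C (m ^ 2 * s2) * X + C (m ^ 2 * p2) := by
        unfold pA
        rw [C_mul (a := m ^ 2) (b := s2), C_mul (a := m ^ 2) (b := p2)]
        ring
      rw [e1, es2, ep2]
      simp only [map_add, map_sub, map_mul, map_pow, C_ofNat, C_1]
      ring
    have heq : V ^ 2 - f = C (m ^ 2) * (pA s p ^ 2 * pA s2 p2) := by
      have e1 : C (m ^ 2) * (pA s p ^ 2 * pA s2 p2) = pA s p ^ 2 * (C (m ^ 2) * pA s2 p2) := by ring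
      rw [e1, hA2]
      linear_combination -hid
    set v3 : K := m with hv3
    set v2 : K := m0 - s * m with hv2
    set v1 : K := b1 + p * m - s * m0 with hv1
    set v0 : K := b0 + p * m0 with hv0
    have hVx : V = C v3 * X ^ 3 + C v2 * X ^ 2 + C v1 * X + C v0 := by
      rw [hV, hv3, hv2, hv1, hv0]
      unfold pA pB
      simp only [map_add, map_sub, map_mul]
      ring
    set B1 : K := -(v1 + v2 * s2 + v3 * (s2 ^ 2 - p2)) with hB1
    set B0 : K := -(v0 - v2 * p2 - v3 * s2 * p2) with hB0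
    have hVB : V + pB B1 B0 = pA s2 p2 * (C v3 * X + C (v2 + v3 * s2)) := by
      rw [hVx, hB1, hB0]
      unfold pA pB
      simp only [map_add, map_sub, map_mul, map_neg, map_pow]
      ring
    have hmum : Mum f (pA s2 p2) (pB B1 B0) := by
      refine ⟨pA_monic _ _, ?_, ?_⟩
      · have h5 : (pA s2 p2).degree = 2 := by
          rw [degree_eq_natDegree (pA_monic _ _).ne_zero, pA_nat]; rfl
        rw [h5]
        unfold pB
        exact degree_linear_lt
      · have h5 : pB B1 B0 ^ 2 - f = (V + pB B1 B0) * (pB B1 B0 - V) + (V ^ 2 - f) := by ring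
        rw [h5, hVB, heq]
        exact ⟨(C v3 * X + C (v2 + v3 * s2)) * (pB B1 B0 - V) + C (m ^ 2) * pA s p ^ 2, by ring⟩
    have hcf : ∀ i, V.coeff i = (C v3 * X ^ 3 + C v2 * X ^ 2 + C v1 * X + C v0).coeff i := by
      intro i; rw [hVx]
    have hdbl : Dbl f (pA s p) (pB b1 b0) m (pA s2 p2) (pB B1 B0) V := by
      refine ⟨hmum, pA_nat _ _, ?_, ?_, hm, heq, hdvdV, ⟨_, hVB⟩⟩
      · rw [hVx]
        compute_degree
      · rw [hcf]
        simp only [coeff_add, coeff_C_mul, coeff_X_pow, coeff_X, coeff_C]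
        norm_num
        exact hv3
    have e0 : ∀ a b : K[X], kum f a b 0 = 1 := fun _ _ => rfl
    have e1 : ∀ (a b : K) (g : K[X]), kum f (pA a b) g 1 = a := by
      intro a b g
      change -(pA a b).coeff 1 = a
      rw [pA_coeff1, neg_neg]
    have e2 : ∀ (a b : K) (g : K[X]), kum f (pA a b) g 2 = b := by
      intro a b g
      exact pA_coeff0 a b
    have e3 : ∀ (a b c d : K), kum f (pA a b) (pB c d) 3
        = c ^ 2 - a ^ 3 + a * b - f.coeff 4 * a ^ 2 - f.coeff 3 * a - f.coeff 2 := by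
      intro a b c d
      change ((pB c d).coeff 1) ^ 2 - (-(pA a b).coeff 1) ^ 3 + (-(pA a b).coeff 1) *
        (pA a b).coeff 0 - f.coeff 4 * (-(pA a b).coeff 1) ^ 2
        - f.coeff 3 * (-(pA a b).coeff 1) - f.coeff 2 = _
      rw [pA_coeff1, pA_coeff0, pB_coeff1, neg_neg]
    have e4 : kum f (pA s p) (pB b1 b0) 3 = -(c0f s p b0 b1 m m0 c2 + p * c2) := by
      rw [e3, H.h4, H.h3, H.h2]
      ring
    have d0 := dupid0 f s p b0 b1 m m0 c2 H (kum f (pA s p) (pB b1 b0)) (e0 _ _) (e1 _ _ _)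
      (e2 _ _ _) e4
    have d1 := dupid1 f s p b0 b1 m m0 c2 H (kum f (pA s p) (pB b1 b0)) (e0 _ _) (e1 _ _ _)
      (e2 _ _ _) e4
    have d2 := dupid2 f s p b0 b1 m m0 c2 H (kum f (pA s p) (pB b1 b0)) (e0 _ _) (e1 _ _ _)
      (e2 _ _ _) e4
    have d3 := dupid3 f s p b0 b1 m m0 c2 H (kum f (pA s p) (pB b1 b0)) (e0 _ _) (e1 _ _ _)
      (e2 _ _ _) e4
    have hT : m ^ 2 * kum f (pA s2 p2) (pB B1 B0) 3 = TT s p b0 b1 m m0 c2 := by
      rw [e3, H.h4, H.h3, H.h2, hB1, hv3, hv2, hv1, hs2, hp2]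
      unfold c0f c1f TT
      field_simp
      ring
    have h16 : (16 : K) ≠ 0 := by
      have : (16 : K) = 2 ^ 4 := by norm_num
      rw [this]
      exact pow_ne_zero 4 h2
    refine ⟨m, pA s2 p2, pB B1 B0, V, hdbl, ?_, ?_, ?_⟩
    · change dup0 f _ = _
      rw [d0, res_pA]
      ring
    · change dup0 f _ ≠ 0
      rw [d0]
      exact mul_ne_zero (mul_ne_zero h16 (pow_ne_zero 2 hr)) hm2
    · intro l
      change dup f _ l = dup0 f _ * _
      rw [d0]
      fin_cases l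
      · change dup0 f _ = _ * kum f _ _ 0
        rw [d0, e0, mul_one]
      · change dup1 f _ = _ * kum f _ _ 1
        rw [d1, e1, ← es2]
        ring
      · change dup2 f _ = _ * kum f _ _ 2
        rw [d2, e2, ← ep2]
        ring
      · change dup3 f _ = _ * kum f _ _ 3
        rw [d3, ← hT]
        ring

end scal

theorem dpa : DpaStatement := by
  intro K _ f A B h2 hf hf5 hG
  have hAm := hG.monic
  have hA2 := hG.two
  have hA := quadform A hAm hA2
  have hBd : B.degree < A.degree := hG.deg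
  have hB : B = C (B.coeff 1) * X + C (B.coeff 0) := by
    apply eq_X_add_C_of_degree_le_one
    rw [degree_eq_natDegree hAm.ne_zero, hA2] at hBd
    exact Order.le_of_lt_succ hBd
  obtain ⟨D, hD⟩ := hG.dvd
  have hfB : f - B ^ 2 = A * (-D) := by rw [mul_neg, ← hD]; ring
  have hBd2 : (B ^ 2).degree < f.degree := by
    have h1 : B.natDegree ≤ 1 := by
      rw [hB]; compute_degree
    have h2 : (B ^ 2).natDegree ≤ 2 := by
      refine (natDegree_pow_le).trans ?_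
      omega
    apply degree_lt_degree
    omega
  have hm1 : (f - B ^ 2).Monic := hf.sub_of_left hBd2
  have hn1 : (f - B ^ 2).natDegree = 5 := by
    rw [natDegree_sub_eq_left_of_natDegree_lt, hf5]
    rw [hf5]
    have h1 : B.natDegree ≤ 1 := by
      rw [hB]; compute_degree
    have h2 : (B ^ 2).natDegree ≤ 2 := by
      refine (natDegree_pow_le).trans ?_
      omega
    omega
  rw [hfB] at hm1 hn1
  have hDm : (-D).Monic := hAm.of_mul_monic_left hm1
  have hDn : (-D).natDegree = 3 := by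
    rw [hAm.natDegree_mul hDm] at hn1
    omega
  have hDf := cubform (-D) hDm hDn
  have hff : f = B ^ 2 + A * (-D) := by rw [← hfB]; ring
  have hAA : A = pA (-A.coeff 1) (A.coeff 0) := hA
  have hBB : B = pB (B.coeff 1) (B.coeff 0) := hB
  have hfp : f = pf (-A.coeff 1) (A.coeff 0) (B.coeff 0) (B.coeff 1) ((-D).coeff 0)
      ((-D).coeff 1) ((-D).coeff 2) := by
    unfold pf
    rw [← hAA, ← hBB, ← hDf]
    exact hff
  have hcop : IsCoprime A B := by
    have h1 : IsCoprime A f := hG.cop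
    rw [hff] at h1
    have h3 : IsCoprime A (B ^ 2) := by
      have := h1.add_mul_left_right (D)
      have e : B ^ 2 + A * -D + A * D = B ^ 2 := by ring
      rwa [e] at this
    exact (IsCoprime.pow_right_iff (by norm_num)).mp h3
  have hr : rr (-A.coeff 1) (A.coeff 0) (B.coeff 0) (B.coeff 1) ≠ 0 := by
    intro h0
    have hid : B * (C (B.coeff 1) * (C (-A.coeff 1) - X) + C (B.coeff 0))
        = A * (-C (B.coeff 1) ^ 2) := by
      have e : B * (C (B.coeff 1) * (C (-A.coeff 1) - X) + C (B.coeff 0))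
        = C (rr (-A.coeff 1) (A.coeff 0) (B.coeff 0) (B.coeff 1)) - C (B.coeff 1) ^ 2 * A := by
        generalize -A.coeff 1 = s at hA ⊢
        generalize A.coeff 0 = p at hA ⊢
        generalize B.coeff 1 = b1 at hB ⊢
        generalize B.coeff 0 = b0 at hB ⊢
        rw [hA, hB]
        unfold rr
        simp only [map_add, map_sub, map_mul, map_pow]
        ring
      rw [e, h0, C_0]
      ring
    have hdv : A ∣ B * (C (B.coeff 1) * (C (-A.coeff 1) - X) + C (B.coeff 0)) := ⟨_, hid⟩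
    have hdv2 := hcop.dvd_of_dvd_mul_left hdv
    have hz : (C (B.coeff 1) * (C (-A.coeff 1) - X) + C (B.coeff 0)) = 0 := by
      apply eq_zero_of_dvd_of_natDegree_lt hdv2
      rw [hA2]
      have : (C (B.coeff 1) * (C (-A.coeff 1) - X) + C (B.coeff 0)).natDegree ≤ 1 := by
        compute_degree
      omega
    have hz1 : B.coeff 1 = 0 := by
      have := congrArg (fun q => q.coeff 1) hz
      simp only [coeff_add, coeff_C_mul, coeff_sub, coeff_X, coeff_C, coeff_zero] at this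
      norm_num at this
      exact this
    have hz0 : B.coeff 0 = 0 := by
      rw [hz1] at hz
      rw [C_0, zero_mul, zero_add] at hz
      exact C_eq_zero.mp hz
    rw [hz1, hz0, C_0, zero_mul, zero_add] at hB
    rw [hB] at hcop
    have hu := isCoprime_zero_right.mp hcop
    have := natDegree_eq_zero_of_isUnit hu
    omega
  have hco := core (-A.coeff 1) (A.coeff 0) (B.coeff 0) (B.coeff 1) ((-D).coeff 0)
      ((-D).coeff 1) ((-D).coeff 2) h2 hr
  rw [← hfp, ← hAA, ← hBB] at hco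
  exact hco

end Pool.Agent.KDS.H21
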